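import Pool.Agent.H687R3.AL.Basic

/-!
# Lagrange property for associative subloops of finite automorphic loops: the group of `S`
-/

set_option autoImplicit false

namespace Pool.Agent.W790.LG

open Pool.Agent.H687R3.AL

variable {Q : Type} {A : AL Q}

theorem ai (g : Equiv.Perm Q) (y : Q) : g (g⁻¹ y) = y := g.apply_symm_apply y

theorem ia (g : Equiv.Perm Q) (y : Q) : g⁻¹ (g y) = y := g.symm_apply_apply y

/-- permutations which become automorphisms after composition with left translations -/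
def Hol (A : AL Q) : Subgroup (Equiv.Perm Q) where
  carrier := {g | ∀ y, (A.L (g y))⁻¹ * g * A.L y ∈ A.Aut}
  mul_mem' := by
    intro a b ha hb y
    have h3 := mul_mem (ha (b y)) (hb y)
    have e : (A.L (a (b y)))⁻¹ * a * A.L (b y) * ((A.L (b y))⁻¹ * b * A.L y) =
        (A.L ((a * b) y))⁻¹ * (a * b) * A.L y := by
      rw [Equiv.Perm.mul_apply]
      group
    rw [← e]
    exact h3
  one_mem' := by
    intro y
    have e : (A.L ((1 : Equiv.Perm Q) y))⁻¹ * 1 * A.L y = 1 := by simp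
    rw [e]
    exact one_mem _
  inv_mem' := by
    intro g hg y
    have h1 := inv_mem (hg (g⁻¹ y))
    have e : ((A.L (g (g⁻¹ y)))⁻¹ * g * A.L (g⁻¹ y))⁻¹ = (A.L (g⁻¹ y))⁻¹ * g⁻¹ * A.L y := by
      rw [ai]
      group
    rw [← e]
    exact h1

theorem R_mem (y : Q) : A.R y ∈ Hol A := fun x => AL.sigma_mem (A := A) x y

theorem Hol_fix {g : Equiv.Perm Q} (hg : g ∈ Hol A) {z : Q} (hz : g z = z) :
    (A.L z)⁻¹ * g * A.L z ∈ A.Aut := by
  have h := hg z
  rwa [hz] at h

theorem Hol_e {g : Equiv.Perm Q} (hg : g ∈ Hol A) (he : g A.e = A.e) : g ∈ A.Aut := by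
  have h := Hol_fix hg he
  rw [AL.L_e] at h
  simpa using h

/-- associative subloops -/
structure Grp (A : AL Q) (S : Set Q) : Prop where
  e : A.e ∈ S
  op : ∀ a ∈ S, ∀ b ∈ S, A.op a b ∈ S
  assoc : ∀ a ∈ S, ∀ b ∈ S, ∀ c ∈ S, A.op (A.op a b) c = A.op a (A.op b c)

/-- the group generated by the right translations -/
def MM (A : AL Q) (S : Set Q) : Subgroup (Equiv.Perm Q) := Subgroup.closure (A.R '' S)

theorem MM_le {S : Set Q} : MM A S ≤ Hol A := by
  unfold MM
  rw [Subgroup.closure_le]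
  rintro _ ⟨s, _, rfl⟩
  exact R_mem s

theorem R_mem_MM {S : Set Q} {s : Q} (hs : s ∈ S) : A.R s ∈ MM A S :=
  Subgroup.subset_closure ⟨s, hs, rfl⟩

/-- the elements of the group act on `S` as right translations -/
theorem MM_act [Finite Q] {S : Set Q} (hS : Grp A S) {g : Equiv.Perm Q} (hg : g ∈ MM A S) :
    ∀ a ∈ S, g a ∈ S ∧ g a = A.op a (g A.e) := by
  unfold MM at hg
  induction hg using Subgroup.closure_induction with
  | mem x hx =>
    obtain ⟨s, hs, rfl⟩ := hx
    intro a ha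
    refine ⟨hS.op a ha s hs, ?_⟩
    show A.op a s = A.op a (A.op A.e s)
    rw [A.idl]
  | one =>
    intro a ha
    refine ⟨ha, ?_⟩
    show a = A.op a A.e
    rw [A.idr]
  | mul g h _ _ ihg ihh =>
    intro a ha
    obtain ⟨h1, h2⟩ := ihh a ha
    obtain ⟨h3, h4⟩ := ihh A.e hS.e
    obtain ⟨h5, h6⟩ := ihg _ h1
    obtain ⟨h7, h8⟩ := ihg _ h3
    obtain ⟨h9, h10⟩ := ihg A.e hS.e
    refine ⟨h5, ?_⟩
    show g (h a) = A.op a (g (h A.e))
    rw [h6, h8, h2, hS.assoc a ha _ h3 _ h9]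
  | inv g _ ih =>
    have hsurj : ∀ a ∈ S, g⁻¹ a ∈ S := by
      intro a ha
      have hsub : g '' S ⊆ S := by
        rintro _ ⟨b, hb, rfl⟩
        exact (ih b hb).1
      have heq : g '' S = S := by
        refine Set.eq_of_subset_of_ncard_le hsub ?_ (Set.toFinite S)
        rw [Set.ncard_image_of_injective _ g.injective]
      have ha' : a ∈ g '' S := by rw [heq]; exact ha
      obtain ⟨b, hb, hb2⟩ := ha'
      rw [← hb2, ia]
      exact hb
    intro a ha
    refine ⟨hsurj a ha, ?_⟩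
    apply g.injective
    have h1 := ih _ (hS.op a ha _ (hsurj A.e hS.e))
    have h2 := ih _ (hsurj A.e hS.e)
    have h3 := ih A.e hS.e
    rw [h1.2, hS.assoc a ha _ (hsurj A.e hS.e) _ h3.1, ← h2.2, ai,
      ai, A.idr]

/-- elements which fix `S` pointwise are central -/
theorem fix_comm {S : Set Q} (hS : Grp A S) {k : Equiv.Perm Q} (hk : k ∈ Hol A)
    (hf : ∀ s ∈ S, k s = s) {g : Equiv.Perm Q} (hg : g ∈ MM A S) : k * g = g * k := by
  have hka : k ∈ A.Aut := Hol_e hk (hf _ hS.e)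
  unfold MM at hg
  induction hg using Subgroup.closure_induction with
  | mem x hx =>
    obtain ⟨s, hs, rfl⟩ := hx
    have h := AL.aut_R hka s
    rwa [hf s hs] at h
  | one => simp
  | mul g h _ _ ihg ihh => rw [← mul_assoc, ihg, mul_assoc, ihh, mul_assoc]
  | inv g _ ih =>
    rw [eq_inv_mul_iff_mul_eq, ← mul_assoc, ← ih, mul_assoc, mul_inv_cancel, mul_one]

/-- two elements of the group which agree at `e` have the same conjugation action -/
theorem conj_eq [Finite Q] {S : Set Q} (hS : Grp A S) {g h t : Equiv.Perm Q} (hg : g ∈ MM A S)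
    (hh : h ∈ MM A S) (ht : t ∈ MM A S) (he : g A.e = h A.e) : g * t * g⁻¹ = h * t * h⁻¹ := by
  have hk : h⁻¹ * g ∈ MM A S := mul_mem (inv_mem hh) hg
  have hf : ∀ s ∈ S, (h⁻¹ * g) s = s := by
    intro s hs
    show h⁻¹ (g s) = s
    rw [Equiv.Perm.inv_eq_iff_eq, (MM_act hS hg s hs).2, (MM_act hS hh s hs).2, he]
  have h1 := fix_comm hS (MM_le hk) hf ht
  have h2 : g = h * (h⁻¹ * g) := by group
  calc g * t * g⁻¹ = h * ((h⁻¹ * g) * t) * (h⁻¹ * g)⁻¹ * h⁻¹ := by group
    _ = h * (t * (h⁻¹ * g)) * (h⁻¹ * g)⁻¹ * h⁻¹ := by rw [h1]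
    _ = h * t * h⁻¹ := by group

end Pool.Agent.W790.LG
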