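import Pool.Agent.W790.LG.Main

/-!
# Lagrange property for associative subloops of finite automorphic loops: counting
-/

set_option autoImplicit false
set_option linter.unusedSectionVars false

namespace Pool.Agent.W790.LG

open Pool.Agent.H687R3.AL Finset
open scoped Classical

variable {Q : Type} {A : AL Q} [Fintype Q]

theorem cj_inj {g : Equiv.Perm Q} {T T' : Finset (Equiv.Perm Q)} (h : cj g T = cj g T') :
    T = T' := by
  rw [← cj_one T, ← cj_one T', ← inv_mul_cancel g, cj_mul, cj_mul, h]

theorem card_class {S : Finset Q} (hS : Grp A (S : Set Q)) (T : Finset (Equiv.Perm Q))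
    (hT : ∀ t ∈ T, t ∈ MM A (S : Set Q)) :
    S.card = (S.image (fun s => cj (A.R s) T)).card *
      (S.filter (fun s => cj (A.R s) T = T)).card := by
  rw [Finset.card_eq_sum_card_image (fun s => cj (A.R s) T) S]
  apply Finset.sum_const_nat
  intro C hC
  rw [Finset.mem_image] at hC
  obtain ⟨s0, hs0, rfl⟩ := hC
  symm
  have hstep : ∀ a ∈ S, cj (A.R (A.op a s0)) T = cj (A.R s0) (cj (A.R a) T) := by
    intro a ha
    rw [← cj_mul]
    exact cj_eq hS hT (R_mem_MM (hS.op _ ha _ hs0)) (mul_mem (R_mem_MM hs0) (R_mem_MM ha)) (by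
      rw [R_mul_e, R_e'])
  refine Finset.card_bij (fun a _ => A.op a s0) ?_ ?_ ?_
  · intro a ha
    rw [Finset.mem_filter] at ha ⊢
    exact ⟨hS.op _ ha.1 _ hs0, by rw [hstep a ha.1, ha.2]⟩
  · intro a _ b _ hab
    exact (A.bijR s0).1 hab
  · intro s hs
    rw [Finset.mem_filter] at hs
    have h1 : (A.R s0)⁻¹ s ∈ (S : Set Q) := (MM_act hS (inv_mem (R_mem_MM hs0)) s hs.1).1
    have h2 : A.op ((A.R s0)⁻¹ s) s0 = s := ai (A.R s0) s
    refine ⟨(A.R s0)⁻¹ s, ?_, h2⟩
    rw [Finset.mem_filter]
    refine ⟨h1, ?_⟩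
    apply cj_inj (g := A.R s0)
    rw [← hstep _ h1, h2, hs.2]

/-- the points with trivial stabilizer -/
noncomputable def Fr (A : AL Q) (S : Finset Q) : Finset Q :=
  univ.filter (fun z => ∀ t ∈ MM A (S : Set Q), t ≠ 1 → t z ≠ z)

theorem mem_Fr {S : Finset Q} {z : Q} :
    z ∈ Fr A S ↔ ∀ t ∈ MM A (S : Set Q), t ≠ 1 → t z ≠ z := by
  unfold Fr
  rw [Finset.mem_filter]
  simp

theorem Fr_act {S : Finset Q} {z : Q} (hz : z ∈ Fr A S) {g : Equiv.Perm Q}
    (hg : g ∈ MM A (S : Set Q)) : g z ∈ Fr A S := by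
  rw [mem_Fr] at hz ⊢
  intro t ht ht1 h
  refine hz (g⁻¹ * t * g) (mul_mem (mul_mem (inv_mem hg) ht) hg) ?_ ?_
  · intro h1
    apply ht1
    have h2 : t = g * (g⁻¹ * t * g) * g⁻¹ := by group
    rw [h2, h1]
    group
  · show g⁻¹ (t (g z)) = z
    rw [h, ia]

theorem orbit_e {S : Finset Q} (hS : Grp A (S : Set Q)) :
    MulAction.orbit (MM A (S : Set Q)) A.e = (S : Set Q) := by
  ext s
  constructor
  · rintro ⟨g, rfl⟩
    exact (MM_act hS g.2 A.e hS.e).1
  · intro hs
    exact ⟨⟨A.R s, R_mem_MM hs⟩, R_e' s⟩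

theorem card_dvd_M {S : Finset Q} (hS : Grp A (S : Set Q)) :
    S.card ∣ Nat.card (MM A (S : Set Q)) := by
  have h1 := MulAction.index_stabilizer (MM A (S : Set Q)) A.e
  rw [orbit_e hS, Set.ncard_coe_finset] at h1
  rw [← h1]
  exact Subgroup.index_dvd_card _

theorem orbit_free {S : Finset Q} {z : Q} (hz : z ∈ Fr A S) :
    (MulAction.orbit (MM A (S : Set Q)) z).ncard = Nat.card (MM A (S : Set Q)) := by
  rw [← MulAction.index_stabilizer, ← Subgroup.index_bot]
  congr 1
  rw [eq_bot_iff]
  intro g hg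
  rw [mem_Fr] at hz
  rw [Subgroup.mem_bot]
  by_contra h1
  exact hz g.1 g.2 (fun h => h1 (Subtype.ext h)) hg

theorem dvd_Fr {S : Finset Q} (hS : Grp A (S : Set Q)) : (S.card : ℤ) ∣ ((Fr A S).card : ℤ) := by
  have h := dvd_sum_orbits (MulAction.orbitRel (MM A (S : Set Q)) Q)
    (fun z => if z ∈ Fr A S then (1 : ℤ) else 0) (S.card : ℤ) ?_ ?_
  · have e : ∑ z : Q, (if z ∈ Fr A S then (1 : ℤ) else 0) = ((Fr A S).card : ℤ) := by
      rw [Finset.sum_boole]
      congr 2
      ext z
      simp
    rwa [e] at h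
  · intro x y hxy
    have h1 : x ∈ MulAction.orbit (MM A (S : Set Q)) y := hxy
    obtain ⟨g, rfl⟩ := h1
    have h2 : (g • y) ∈ Fr A S ↔ y ∈ Fr A S := by
      constructor
      · intro h3
        have h4 := Fr_act h3 (inv_mem g.2)
        have h5 : (g.1)⁻¹ (g • y) = y := ia g.1 y
        rwa [h5] at h4
      · intro h3
        exact Fr_act h3 g.2
    show (if (g • y) ∈ Fr A S then (1 : ℤ) else 0) = _
    simp only [h2]
  · intro x
    by_cases hx : x ∈ Fr A S
    · rw [if_pos hx, mul_one]
      have h1 : (univ.filter (fun y => (MulAction.orbitRel (MM A (S : Set Q)) Q) x y)).card =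
          (MulAction.orbit (MM A (S : Set Q)) x).ncard := by
        rw [← Set.ncard_coe_finset]
        congr 1
        ext y
        rw [Finset.mem_coe, Finset.mem_filter]
        constructor
        · rintro ⟨_, h2⟩
          exact (MulAction.orbitRel (MM A (S : Set Q)) Q).symm h2
        · intro h2
          exact ⟨mem_univ _, (MulAction.orbitRel (MM A (S : Set Q)) Q).symm h2⟩
      rw [h1, orbit_free hx]
      exact_mod_cast card_dvd_M hS
    · rw [if_neg hx, mul_zero]
      exact dvd_zero _

/-- conjugacy of finite sets of permutations -/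
def cjrel (A : AL Q) (S : Finset Q) : Setoid (Finset (Equiv.Perm Q)) where
  r T T' := ∃ g ∈ MM A (S : Set Q), cj g T = T'
  iseqv := by
    refine ⟨fun T => ⟨1, one_mem _, cj_one T⟩, ?_, ?_⟩
    · rintro T T' ⟨g, hg, rfl⟩
      exact ⟨g⁻¹, inv_mem hg, by rw [← cj_mul, inv_mul_cancel, cj_one]⟩
    · rintro T T' T'' ⟨g, hg, rfl⟩ ⟨h, hh, rfl⟩
      exact ⟨h * g, mul_mem hh hg, by rw [cj_mul]⟩

/-- the nontrivial elements of the group -/
noncomputable def M1 (A : AL Q) (S : Finset Q) : Finset (Equiv.Perm Q) :=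
  univ.filter (fun t => t ∈ MM A (S : Set Q) ∧ t ≠ 1)

theorem mem_M1 {S : Finset Q} {t : Equiv.Perm Q} :
    t ∈ M1 A S ↔ t ∈ MM A (S : Set Q) ∧ t ≠ 1 := by
  unfold M1
  rw [Finset.mem_filter]
  simp

theorem cj_sub {S : Finset Q} {T : Finset (Equiv.Perm Q)} (hT : T ∈ (M1 A S).powerset.erase ∅)
    {g : Equiv.Perm Q} (hg : g ∈ MM A (S : Set Q)) : cj g T ∈ (M1 A S).powerset.erase ∅ := by
  rw [Finset.mem_erase, Finset.mem_powerset] at hT ⊢
  constructor
  · intro h
    apply hT.1
    rw [← Finset.card_eq_zero, ← card_cj g T, h, Finset.card_empty]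
  · intro x hx
    rw [mem_cj] at hx
    have h1 := hT.2 hx
    rw [mem_M1] at h1 ⊢
    have h2 : x = g * (g⁻¹ * x * g) * g⁻¹ := by group
    constructor
    · rw [h2]
      exact mul_mem (mul_mem hg h1.1) (inv_mem hg)
    · intro h3
      apply h1.2
      rw [h3]
      group

theorem main_aux (n : ℕ) : ∀ (Q : Type) [Fintype Q] (A : AL Q) (S : Finset Q),
    Fintype.card Q = n → Grp A (S : Set Q) → S.card ∣ Fintype.card Q := by
  induction n using Nat.strong_induction_on with
  | _ n ih =>
    intro Q _ A S hn hS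
    have IH : ∀ (Q' : Type) [Fintype Q'] (A' : AL Q') (S' : Finset Q'),
        Fintype.card Q' < Fintype.card Q → Grp A' (S' : Set Q') →
          S'.card ∣ Fintype.card Q' := by
      intro Q' _ A' S' hlt hS'
      exact ih _ (by rw [← hn]; exact hlt) Q' A' S' rfl hS'
    have hie := Finset.inclusion_exclusion_card_inf_compl (M1 A S)
      (fun t => univ.filter (fun z : Q => t z = z))
    have e1 : ((M1 A S).inf fun t => (univ.filter (fun z : Q => t z = z))ᶜ) = Fr A S := by
      ext z
      rw [Finset.mem_inf, mem_Fr]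
      constructor
      · intro h t ht ht1
        have h1 := h t (mem_M1.2 ⟨ht, ht1⟩)
        simpa using h1
      · intro h t ht
        rw [mem_M1] at ht
        have h1 := h t ht.1 ht.2
        simpa using h1
    have e2 : ∀ T : Finset (Equiv.Perm Q),
        (T.inf fun t => univ.filter (fun z : Q => t z = z)) = Fx T := by
      intro T
      ext z
      rw [Finset.mem_inf, mem_Fx]
      constructor
      · intro h t ht
        have h1 := h t ht
        simpa using h1
      · intro h t ht
        have h1 := h t ht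
        simpa using h1
    rw [e1] at hie
    simp only [e2] at hie
    have hmem : (∅ : Finset (Equiv.Perm Q)) ∈ (M1 A S).powerset := Finset.empty_mem_powerset _
    rw [← Finset.add_sum_erase _ _ hmem] at hie
    have e3 : (Fx (∅ : Finset (Equiv.Perm Q))).card = Fintype.card Q := by
      have : Fx (∅ : Finset (Equiv.Perm Q)) = (univ : Finset Q) := by
        ext z
        rw [mem_Fx]
        simp
      rw [this, Finset.card_univ]
    rw [e3, Finset.card_empty, pow_zero, one_mul] at hie
    have hsum : (S.card : ℤ) ∣ ∑ T ∈ (M1 A S).powerset.erase ∅,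
        (-1 : ℤ) ^ T.card * ((Fx T).card : ℤ) := by
      have h := dvd_sum_orbits (cjrel A S)
        (fun T => if T ∈ (M1 A S).powerset.erase ∅ then (-1 : ℤ) ^ T.card * ((Fx T).card : ℤ)
          else 0) (S.card : ℤ) ?_ ?_
      · rw [Finset.sum_ite_mem, Finset.univ_inter] at h
        exact h
      · rintro T T' ⟨g, hg, rfl⟩
        have h2 : cj g T ∈ (M1 A S).powerset.erase ∅ ↔ T ∈ (M1 A S).powerset.erase ∅ := by
          constructor
          · intro h3
            have h4 := cj_sub h3 (inv_mem hg)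
            rwa [← cj_mul, inv_mul_cancel, cj_one] at h4
          · intro h3
            exact cj_sub h3 hg
        simp only [h2, card_cj, card_Fx_cj]
      · intro T
        by_cases hT : T ∈ (M1 A S).powerset.erase ∅
        · rw [if_pos hT]
          have hT' := hT
          rw [Finset.mem_erase, Finset.mem_powerset] at hT'
          have hTM : ∀ t ∈ T, t ∈ MM A (S : Set Q) := fun t ht => (mem_M1.1 (hT'.2 ht)).1
          have hcl : univ.filter (fun T' => cjrel A S T T') =
              S.image (fun s => cj (A.R s) T) := by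
            ext T'
            rw [Finset.mem_filter, Finset.mem_image]
            constructor
            · rintro ⟨_, g, hg, rfl⟩
              have hge : g A.e ∈ (S : Set Q) := (MM_act hS hg A.e hS.e).1
              exact ⟨g A.e, hge, cj_eq hS hTM (R_mem_MM hge) hg (R_e' _)⟩
            · rintro ⟨s, hs, rfl⟩
              exact ⟨mem_univ _, A.R s, R_mem_MM hs, rfl⟩
          rw [hcl]
          by_cases hne : (Fx T).Nonempty
          · obtain ⟨z, hz⟩ := hne
            rw [mem_Fx] at hz
            obtain ⟨t, ht⟩ := Finset.nonempty_iff_ne_empty.2 hT'.1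
            have hk := key A S hS IH T hTM ⟨t, ht, (mem_M1.1 (hT'.2 ht)).2⟩ z hz
            have hc := card_class hS T hTM
            obtain ⟨k, hk⟩ := hk
            refine ⟨(-1) ^ T.card * (k : ℤ), ?_⟩
            rw [hk, hc]
            push_cast
            ring
          · rw [Finset.not_nonempty_iff_eq_empty] at hne
            rw [hne, Finset.card_empty]
            simp
        · rw [if_neg hT, mul_zero]
          exact dvd_zero _
    have hfr := dvd_Fr hS
    have hfin : (S.card : ℤ) ∣ (Fintype.card Q : ℤ) := by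
      have h1 : (Fintype.card Q : ℤ) = ((Fr A S).card : ℤ) -
          ∑ T ∈ (M1 A S).powerset.erase ∅, (-1 : ℤ) ^ T.card * ((Fx T).card : ℤ) := by
        rw [hie]
        ring
      rw [h1]
      exact dvd_sub hfr hsum
    exact_mod_cast hfin

theorem lagrange_assoc (A : AL Q) (S : Finset Q) (hS : Grp A (S : Set Q)) :
    S.card ∣ Fintype.card Q := main_aux _ Q A S rfl hS

end Pool.Agent.W790.LG
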