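import Pool.Agent.W790.LG.Base

/-!
# Lagrange property for associative subloops of finite automorphic loops
-/

set_option autoImplicit false

namespace Pool.Agent.W790.LG

open Pool.Agent.H687R3.AL Finset
open scoped Classical

variable {Q : Type} {A : AL Q}

/-- conjugation of a finite set of permutations -/
noncomputable def cj (g : Equiv.Perm Q) (T : Finset (Equiv.Perm Q)) : Finset (Equiv.Perm Q) :=
  T.image (fun t => g * t * g⁻¹)

theorem mem_cj {g t : Equiv.Perm Q} {T : Finset (Equiv.Perm Q)} :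
    t ∈ cj g T ↔ g⁻¹ * t * g ∈ T := by
  unfold cj
  rw [Finset.mem_image]
  constructor
  · rintro ⟨x, hx, rfl⟩
    have : g⁻¹ * (g * x * g⁻¹) * g = x := by group
    rw [this]
    exact hx
  · intro h
    exact ⟨_, h, by group⟩

theorem mem_cj' {g x : Equiv.Perm Q} {T : Finset (Equiv.Perm Q)} :
    x ∈ cj g T ↔ ∃ t ∈ T, g * t * g⁻¹ = x := by
  unfold cj
  rw [Finset.mem_image]

theorem cj_mul (g h : Equiv.Perm Q) (T : Finset (Equiv.Perm Q)) :
    cj (g * h) T = cj g (cj h T) := by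
  ext t
  rw [mem_cj, mem_cj, mem_cj]
  have : (g * h)⁻¹ * t * (g * h) = h⁻¹ * (g⁻¹ * t * g) * h := by group
  rw [this]

theorem cj_one (T : Finset (Equiv.Perm Q)) : cj 1 T = T := by
  ext t
  rw [mem_cj]
  simp

theorem card_cj (g : Equiv.Perm Q) (T : Finset (Equiv.Perm Q)) : (cj g T).card = T.card := by
  unfold cj
  apply Finset.card_image_of_injective
  intro a b hab
  have h : g * a * g⁻¹ = g * b * g⁻¹ := hab
  exact mul_left_cancel (mul_right_cancel h)

variable [Fintype Q]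

/-- the common fixed points -/
noncomputable def Fx (T : Finset (Equiv.Perm Q)) : Finset Q :=
  univ.filter (fun z => ∀ t ∈ T, t z = z)

theorem mem_Fx {T : Finset (Equiv.Perm Q)} {z : Q} : z ∈ Fx T ↔ ∀ t ∈ T, t z = z := by
  simp [Fx]

theorem card_Fx_cj (g : Equiv.Perm Q) (T : Finset (Equiv.Perm Q)) :
    (Fx (cj g T)).card = (Fx T).card := by
  refine (Finset.card_bij (fun z _ => g z) ?_ ?_ ?_).symm
  · intro z hz
    rw [mem_Fx] at hz ⊢
    intro t ht
    rw [mem_cj] at ht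
    have h := hz _ ht
    have h2 : g⁻¹ (t (g z)) = z := h
    rw [Equiv.Perm.inv_eq_iff_eq] at h2
    exact h2
  · intro a _ b _ hab
    exact g.injective hab
  · intro z hz
    rw [mem_Fx] at hz
    refine ⟨g⁻¹ z, ?_, ai g z⟩
    rw [mem_Fx]
    intro t ht
    have h := hz (g * t * g⁻¹) (by
      rw [mem_cj]
      have : g⁻¹ * (g * t * g⁻¹) * g = t := by group
      rw [this]
      exact ht)
    have h2 : g (t (g⁻¹ z)) = z := h
    rw [← ia g (t (g⁻¹ z)), h2]

/-- sums over orbits -/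
theorem dvd_sum_orbits {Y : Type} [Fintype Y] (r : Setoid Y) (f : Y → ℤ) (d : ℤ)
    (hf : ∀ x y, r x y → f x = f y)
    (h : ∀ x, d ∣ ((univ.filter (fun y => r x y)).card : ℤ) * f x) : d ∣ ∑ y, f y := by
  have h1 : ∑ y, f y = ∑ ω : Quotient r, ∑ y ∈ univ.filter (fun y => Quotient.mk r y = ω), f y :=
    (Finset.sum_fiberwise univ (fun y => Quotient.mk r y) f).symm
  rw [h1]
  refine Finset.dvd_sum fun ω _ => ?_
  induction ω using Quotient.inductionOn with
  | h x =>
    have h2 : univ.filter (fun y => Quotient.mk r y = Quotient.mk r x) =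
        univ.filter (fun y => r x y) := by
      ext y
      simp only [mem_filter, mem_univ, true_and]
      rw [Quotient.eq]
      exact ⟨fun h => r.symm h, fun h => r.symm h⟩
    have h3 : ∑ y ∈ univ.filter (fun y => r x y), f y =
        ((univ.filter (fun y => r x y)).card : ℤ) * f x := by
      rw [Finset.sum_congr rfl (fun y hy => (hf x y (by simpa using hy)).symm), Finset.sum_const,
        nsmul_eq_mul]
    rw [h2, h3]
    exact h x

/-- the subloop on a closed subset -/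
def sub (A : AL Q) (F : Set Q) (he : A.e ∈ F) (hop : ∀ a ∈ F, ∀ b ∈ F, A.op a b ∈ F) : AL F where
  op a b := ⟨A.op a b, hop _ a.2 _ b.2⟩
  e := ⟨A.e, he⟩
  idl x := Subtype.ext (A.idl x)
  idr x := Subtype.ext (A.idr x)
  bijL x := Finite.injective_iff_bijective.1 fun a b hab =>
    Subtype.ext ((A.bijL x).1 (congrArg Subtype.val hab))
  bijR x := Finite.injective_iff_bijective.1 fun a b hab =>
    Subtype.ext ((A.bijR x).1 (congrArg Subtype.val hab))
  autL x y z₁ z₂ w₁ w₂ h1 h2 := Subtype.ext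
    (A.autL x y z₁ z₂ w₁ w₂ (congrArg Subtype.val h1) (congrArg Subtype.val h2))
  autR x y z₁ z₂ w₁ w₂ h1 h2 := Subtype.ext
    (A.autR x y z₁ z₂ w₁ w₂ (congrArg Subtype.val h1) (congrArg Subtype.val h2))
  autT x z₁ z₂ w₁ w₂ h1 h2 := Subtype.ext
    (A.autT x z₁ z₂ w₁ w₂ (congrArg Subtype.val h1) (congrArg Subtype.val h2))

theorem R_mul_e (a b : Q) : (A.R b * A.R a) A.e = A.op a b := by
  show A.op (A.op A.e a) b = _
  rw [A.idl]

theorem R_e' (a : Q) : A.R a A.e = a := A.idl a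

theorem cj_eq {S : Set Q} (hS : Grp A S) {T : Finset (Equiv.Perm Q)}
    (hT : ∀ t ∈ T, t ∈ MM A S) {g h : Equiv.Perm Q} (hg : g ∈ MM A S) (hh : h ∈ MM A S)
    (he : g A.e = h A.e) : cj g T = cj h T := by
  ext x
  rw [mem_cj', mem_cj']
  constructor
  · rintro ⟨t, ht, rfl⟩
    exact ⟨t, ht, (conj_eq hS hg hh (hT t ht) he).symm⟩
  · rintro ⟨t, ht, rfl⟩
    exact ⟨t, ht, conj_eq hS hg hh (hT t ht) he⟩

theorem key (A : AL Q) (S : Finset Q) (hS : Grp A (S : Set Q))
    (IH : ∀ (Q' : Type) [Fintype Q'] (A' : AL Q') (S' : Finset Q'),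
      Fintype.card Q' < Fintype.card Q → Grp A' (S' : Set Q') → S'.card ∣ Fintype.card Q')
    (T : Finset (Equiv.Perm Q)) (hT : ∀ t ∈ T, t ∈ MM A (S : Set Q)) (hT1 : ∃ t ∈ T, t ≠ 1)
    (z : Q) (hz : ∀ t ∈ T, t z = z) :
    (S.filter (fun s => cj (A.R s) T = T)).card ∣ (Fx T).card := by
  set F : Set Q := {w | ∀ t ∈ T, t (A.op z w) = A.op z w} with hF
  have haut : ∀ t ∈ T, (A.L z)⁻¹ * t * A.L z ∈ A.Aut := fun t ht =>
    Hol_fix (MM_le (hT t ht)) (hz t ht)
  have hiff : ∀ t w, ((A.L z)⁻¹ * t * A.L z) w = w ↔ t (A.op z w) = A.op z w := by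
    intro t w
    show (A.L z)⁻¹ (t (A.op z w)) = w ↔ _
    rw [Equiv.Perm.inv_eq_iff_eq]
    rfl
  have he : A.e ∈ F := by
    intro t ht
    rw [A.idr]
    exact hz t ht
  have hop : ∀ a ∈ F, ∀ b ∈ F, A.op a b ∈ F := by
    intro a ha b hb t ht
    rw [← hiff, AL.aut_apply (haut t ht), (hiff t a).2 (ha t ht), (hiff t b).2 (hb t ht)]
  have hcard : (Fx T).card = Fintype.card F := by
    rw [← Finset.card_univ]
    refine (Finset.card_bij (fun (w : F) _ => A.op z w) ?_ ?_ ?_).symm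
    · intro w _
      rw [mem_Fx]
      exact w.2
    · intro a _ b _ hab
      exact Subtype.ext ((A.bijL z).1 hab)
    · intro y hy
      rw [mem_Fx] at hy
      obtain ⟨w, hw⟩ := (A.bijL z).2 y
      have hw' : A.op z w = y := hw
      refine ⟨⟨w, ?_⟩, mem_univ _, hw'⟩
      intro t ht
      rw [hw']
      exact hy t ht
  have hex : ∃ q, ∃ t ∈ T, t q ≠ q := by
    obtain ⟨t, ht, ht1⟩ := hT1
    by_contra hcon
    push Not at hcon
    exact ht1 (Equiv.ext fun q => hcon q t ht)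
  have hlt : Fintype.card F < Fintype.card Q := by
    obtain ⟨q, t, ht, hq⟩ := hex
    apply Fintype.card_subtype_lt (x := (A.L z)⁻¹ q)
    intro hmem
    have h1 := hmem t ht
    apply hq
    have h2 : A.op z ((A.L z)⁻¹ q) = q := ai (A.L z) q
    rw [h2] at h1
    exact h1
  set ST := S.filter (fun s => cj (A.R s) T = T) with hST
  have hSTF : ∀ s ∈ ST, s ∈ F := by
    intro s hs t ht
    rw [hST, Finset.mem_filter] at hs
    have h1 : (A.R s)⁻¹ * t * A.R s ∈ T := by
      rw [← mem_cj, hs.2]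
      exact ht
    have h2 := hz _ h1
    have h3 : (A.R s)⁻¹ (t (A.op z s)) = z := h2
    rw [Equiv.Perm.inv_eq_iff_eq] at h3
    exact h3
  set S' : Finset F := univ.filter (fun w : F => (w : Q) ∈ ST) with hS'
  have hcard' : S'.card = ST.card := by
    refine Finset.card_bij (fun (w : F) _ => (w : Q)) ?_ ?_ ?_
    · intro w hw
      rw [hS', Finset.mem_filter] at hw
      exact hw.2
    · intro a _ b _ hab
      exact Subtype.ext hab
    · intro y hy
      exact ⟨⟨y, hSTF y hy⟩, by rw [hS', Finset.mem_filter]; exact ⟨mem_univ _, hy⟩, rfl⟩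
  have hmem' : ∀ w : F, w ∈ (S' : Set F) ↔ (w : Q) ∈ ST := by
    intro w
    rw [Finset.mem_coe, hS', Finset.mem_filter]
    simp
  rw [hcard, ← hcard']
  refine IH F (sub A F he hop) S' hlt ⟨?_, ?_, ?_⟩
  · rw [hmem', hST, Finset.mem_filter]
    refine ⟨hS.e, ?_⟩
    show cj (A.R A.e) T = T
    have h1 : cj (A.R A.e) T = cj 1 T := cj_eq hS hT (R_mem_MM hS.e) (one_mem _) (A.idl A.e)
    rw [h1, cj_one]
  · intro a ha b hb
    rw [hmem', hST, Finset.mem_filter] at ha hb ⊢
    refine ⟨hS.op _ ha.1 _ hb.1, ?_⟩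
    show cj (A.R (A.op a b)) T = T
    have h1 : cj (A.R (A.op a b)) T = cj (A.R b * A.R a) T :=
      cj_eq hS hT (R_mem_MM (hS.op _ ha.1 _ hb.1)) (mul_mem (R_mem_MM hb.1) (R_mem_MM ha.1)) (by
        rw [R_mul_e, R_e'])
    rw [h1, cj_mul, ha.2, hb.2]
  · intro a ha b hb c hc
    rw [hmem', hST, Finset.mem_filter] at ha hb hc
    exact Subtype.ext (hS.assoc _ ha.1 _ hb.1 _ hc.1)

end Pool.Agent.W790.LG
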