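import Pool.Agent.W790.LG.Count

/-!
# Lagrange property for subloops whose right multiplication group is a p-group
-/

set_option autoImplicit false
set_option linter.unusedSectionVars false

namespace Pool.Agent.W790.LG

open Pool.Agent.H687R3.AL Finset
open scoped Classical

theorem orbit_ppow {G X : Type} [Group G] [Finite G] [MulAction G X] {p : ℕ} (x : X)
    (h : ∀ g : G, ∀ q : ℕ, q.Prime → q ≠ p → (∃ k : ℕ, g ^ (q ^ k) = 1) → g • x = x) :
    ∃ n, (MulAction.orbit G x).ncard = p ^ n := by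
  rw [← MulAction.index_stabilizer]
  have hne : (MulAction.stabilizer G x).index ≠ 0 := Subgroup.index_ne_zero_of_finite
  refine ⟨_, Nat.eq_prime_pow_of_unique_prime_dvd hne ?_⟩
  intro q hq hdvd
  by_contra hqp
  haveI : Fact q.Prime := ⟨hq⟩
  obtain ⟨W⟩ : Nonempty (Sylow q G) := inferInstance
  have hle : (W : Subgroup G) ≤ MulAction.stabilizer G x := by
    intro g hg
    obtain ⟨k, hk⟩ := W.isPGroup' ⟨g, hg⟩
    exact h g q hq hqp ⟨k, congrArg Subtype.val hk⟩
  have h1 : (MulAction.stabilizer G x).index ∣ (W : Subgroup G).index :=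
    Subgroup.index_dvd_of_le hle
  exact W.not_dvd_index (hdvd.trans h1)

theorem orb_stab {P X : Type} [Group P] [Finite P] [MulAction P X] (G : Subgroup P) (x : X) :
    Nat.card G = (MulAction.orbit G x).ncard *
      Nat.card (G ⊓ MulAction.stabilizer P x : Subgroup P) := by
  rw [← MulAction.index_stabilizer]
  have h1 : Nat.card (MulAction.stabilizer G x) =
      Nat.card (G ⊓ MulAction.stabilizer P x : Subgroup P) :=
    Nat.card_congr ⟨fun g => ⟨g.1.1, g.1.2, g.2⟩, fun g => ⟨⟨g.1, g.2.1⟩, g.2.2⟩,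
      fun _ => rfl, fun _ => rfl⟩
  rw [← h1, Subgroup.index_mul_card]

variable {Q : Type} {A : AL Q}

/-- subloops -/
structure SL (A : AL Q) (S : Set Q) : Prop where
  e : A.e ∈ S
  op : ∀ a ∈ S, ∀ b ∈ S, A.op a b ∈ S

/-- the right multiplication group of `S` is a `p`-group -/
def HP (A : AL Q) (S : Set Q) (p : ℕ) : Prop :=
  ∀ g ∈ MM A S, ∃ k : ℕ, ∀ s ∈ S, (g ^ (p ^ k)) s = s

theorem inv_mem_of_map [Finite Q] {S : Set Q} {g : Equiv.Perm Q} (h : ∀ a ∈ S, g a ∈ S) :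
    ∀ a ∈ S, g⁻¹ a ∈ S := by
  intro a ha
  have hsub : g '' S ⊆ S := by
    rintro _ ⟨b, hb, rfl⟩
    exact h b hb
  have heq : g '' S = S := by
    refine Set.eq_of_subset_of_ncard_le hsub ?_ (Set.toFinite S)
    rw [Set.ncard_image_of_injective _ g.injective]
  have ha' : a ∈ g '' S := by rw [heq]; exact ha
  obtain ⟨b, hb, hb2⟩ := ha'
  rw [← hb2, ia]
  exact hb

theorem MM_S [Finite Q] {S : Set Q} (hS : SL A S) {g : Equiv.Perm Q} (hg : g ∈ MM A S) :
    ∀ a ∈ S, g a ∈ S := by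
  unfold MM at hg
  induction hg using Subgroup.closure_induction with
  | mem x hx =>
    obtain ⟨s, hs, rfl⟩ := hx
    intro a ha
    exact hS.op a ha s hs
  | one =>
    intro a ha
    exact ha
  | mul g h _ _ ihg ihh =>
    intro a ha
    exact ihg _ (ihh a ha)
  | inv g _ ih => exact inv_mem_of_map ih

theorem ldiv_mem [Finite Q] {S : Set Q} (hS : SL A S) {a b : Q} (ha : a ∈ S) (hb : b ∈ S) :
    (A.L a)⁻¹ b ∈ S := inv_mem_of_map (g := A.L a) (fun x hx => hS.op a ha x hx) b hb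

theorem fix_comm' {S : Set Q} (he : A.e ∈ S) {k : Equiv.Perm Q} (hk : k ∈ Hol A)
    (hf : ∀ s ∈ S, k s = s) {g : Equiv.Perm Q} (hg : g ∈ MM A S) : k * g = g * k := by
  have hka : k ∈ A.Aut := Hol_e hk (hf _ he)
  unfold MM at hg
  induction hg using Subgroup.closure_induction with
  | mem x hx =>
    obtain ⟨s, hs, rfl⟩ := hx
    have h := AL.aut_R hka s
    rwa [hf s hs] at h
  | one => simp
  | mul g h _ _ ihg ihh => rw [← mul_assoc, ihg, mul_assoc, ihh, mul_assoc]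
  | inv g _ ih =>
    rw [eq_inv_mul_iff_mul_eq, ← mul_assoc, ← ih, mul_assoc, mul_inv_cancel, mul_one]

theorem qfix {S : Set Q} {p : ℕ} (hp : p.Prime) (hH : HP A S p) {g : Equiv.Perm Q}
    (hg : g ∈ MM A S) {q : ℕ} (hq : q.Prime) (hqp : q ≠ p) {k : ℕ} (hk : g ^ (q ^ k) = 1) :
    ∀ s ∈ S, g s = s := by
  obtain ⟨j, hj⟩ := hH g hg
  intro s hs
  have h1 : g ^ (p ^ j) ∈ MulAction.stabilizer (Equiv.Perm Q) s := hj s hs
  have h2 : g ^ (q ^ k) ∈ MulAction.stabilizer (Equiv.Perm Q) s := by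
    rw [hk]
    exact one_mem _
  have hco : Nat.Coprime (p ^ j) (q ^ k) :=
    Nat.Coprime.pow _ _ ((Nat.coprime_primes hp hq).2 (Ne.symm hqp))
  have h3 : (1 : ℤ) = ((p ^ j : ℕ) : ℤ) * Nat.gcdA (p ^ j) (q ^ k) +
      ((q ^ k : ℕ) : ℤ) * Nat.gcdB (p ^ j) (q ^ k) := by
    rw [← Nat.gcd_eq_gcd_ab, hco]
    rfl
  have h4 : g ∈ MulAction.stabilizer (Equiv.Perm Q) s := by
    rw [← zpow_one g, h3, zpow_add, zpow_mul, zpow_mul, zpow_natCast, zpow_natCast]
    exact mul_mem (zpow_mem h1 _) (zpow_mem h2 _)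
  exact h4

variable [Fintype Q]

theorem orbit_e' {S : Finset Q} (hS : SL A (S : Set Q)) :
    MulAction.orbit (MM A (S : Set Q)) A.e = (S : Set Q) := by
  ext s
  constructor
  · rintro ⟨g, rfl⟩
    exact MM_S hS g.2 A.e hS.e
  · intro hs
    exact ⟨⟨A.R s, R_mem_MM hs⟩, R_e' s⟩

theorem card_ppow {S : Finset Q} (hS : SL A (S : Set Q)) {p : ℕ} (hp : p.Prime)
    (hH : HP A (S : Set Q) p) : ∃ n, S.card = p ^ n := by
  have h := orbit_ppow (G := MM A (S : Set Q)) (p := p) A.e (by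
    rintro g q hq hqp ⟨k, hk⟩
    exact qfix hp hH g.2 hq hqp (k := k) (by simpa using congrArg Subtype.val hk) A.e hS.e)
  rwa [orbit_e' hS, Set.ncard_coe_finset] at h

theorem HP_sub {S : Finset Q} {p : ℕ} (hH : HP A (S : Set Q) p) (F : Set Q) (he : A.e ∈ F)
    (hop : ∀ a ∈ F, ∀ b ∈ F, A.op a b ∈ F) (S' : Set F) (hS' : ∀ x ∈ S', (x : Q) ∈ S) :
    HP (sub A F he hop) S' p := by
  have hlift : ∀ g' ∈ MM (sub A F he hop) S', ∃ g ∈ MM A (S : Set Q), ∀ x : F,
      ((g' x : F) : Q) = g x := by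
    intro g' hg'
    unfold MM at hg'
    induction hg' using Subgroup.closure_induction with
    | mem x hx =>
      obtain ⟨s, hs, rfl⟩ := hx
      exact ⟨A.R s, R_mem_MM (hS' s hs), fun x => rfl⟩
    | one => exact ⟨1, one_mem _, fun x => rfl⟩
    | mul a b _ _ iha ihb =>
      obtain ⟨a', ha', ha2⟩ := iha
      obtain ⟨b', hb', hb2⟩ := ihb
      refine ⟨a' * b', mul_mem ha' hb', fun x => ?_⟩
      show ((a (b x) : F) : Q) = a' (b' x)
      rw [ha2, hb2]
    | inv a _ iha =>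
      obtain ⟨a', ha', ha2⟩ := iha
      refine ⟨a'⁻¹, inv_mem ha', fun x => ?_⟩
      have h1 := ha2 (a⁻¹ x)
      rw [ai] at h1
      rw [h1, ia]
  intro g' hg'
  obtain ⟨g, hg, hgx⟩ := hlift g' hg'
  obtain ⟨k, hk⟩ := hH g hg
  refine ⟨k, fun s hs => ?_⟩
  have hpow : ∀ n : ℕ, ∀ x : F, (((g' ^ n) x : F) : Q) = (g ^ n) x := by
    intro n
    induction n with
    | zero => intro x; rfl
    | succ n ih =>
      intro x
      rw [pow_succ, pow_succ]
      show (((g' ^ n) (g' x) : F) : Q) = (g ^ n) (g x)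
      rw [ih, hgx]
  apply Subtype.ext
  rw [hpow]
  exact hk s (hS' s hs)

theorem keyN (A : AL Q) (S : Finset Q) (hS : SL A (S : Set Q)) {p : ℕ} (hp : p.Prime)
    (hH : HP A (S : Set Q) p)
    (IH : ∀ (Q' : Type) [Fintype Q'] (A' : AL Q') (S' : Finset Q'),
      Fintype.card Q' < Fintype.card Q → SL A' (S' : Set Q') → HP A' (S' : Set Q') p →
        S'.card ∣ Fintype.card Q')
    (T : Finset (Equiv.Perm Q)) (hT : ∀ t ∈ T, t ∈ MM A (S : Set Q)) (hT1 : ∃ t ∈ T, t ≠ 1)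
    (z : Q) (hz : ∀ t ∈ T, t z = z) (T' : Finset (Equiv.Perm Q)) :
    ∃ m : ℕ, p ^ m ∣ (Fx T).card ∧ (S.filter (fun s => cj (A.R s) T' = T)).card ≤ p ^ m := by
  by_cases hemp : (S.filter (fun s => cj (A.R s) T' = T)).Nonempty
  swap
  · rw [Finset.not_nonempty_iff_eq_empty] at hemp
    exact ⟨0, by simp, by rw [hemp]; simp⟩
  obtain ⟨s0, hs0⟩ := hemp
  rw [Finset.mem_filter] at hs0
  have hmap : ∀ s, cj (A.R s) T' = T → ∀ w, (w ∈ Fx T' ↔ A.op w s ∈ Fx T) := by
    intro s hs w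
    rw [mem_Fx, mem_Fx]
    constructor
    · intro h t ht
      rw [← hs, mem_cj] at ht
      have h1 := h _ ht
      have h2 : (A.R s)⁻¹ (t (A.op w s)) = w := h1
      rw [Equiv.Perm.inv_eq_iff_eq] at h2
      exact h2
    · intro h t ht
      have h1 : A.R s * t * (A.R s)⁻¹ ∈ T := by
        rw [← hs, mem_cj]
        have : (A.R s)⁻¹ * (A.R s * t * (A.R s)⁻¹) * A.R s = t := by group
        rw [this]
        exact ht
      have h2 := h _ h1
      have h3 : A.R s (t ((A.R s)⁻¹ (A.R s w))) = A.R s w := h2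
      rw [ia] at h3
      exact (A.R s).injective h3
  set w := (A.R s0)⁻¹ z with hw
  have hws : A.op w s0 = z := ai (A.R s0) z
  have hwF : w ∈ Fx T' := by
    rw [hmap s0 hs0.2, hws, mem_Fx]
    exact hz
  set B : Equiv.Perm Q := A.L w * A.L s0 with hB
  have hBx : ∀ x, B x = A.op w (A.op s0 x) := fun x => rfl
  have haut : ∀ t ∈ T, B⁻¹ * t * B ∈ A.Aut := by
    intro t ht
    have h1 := AL.theta_mem (A := A) w s0
    rw [hws] at h1
    have h2 := Hol_fix (MM_le (hT t ht)) (hz t ht)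
    have h3 := mul_mem (mul_mem (inv_mem h1) h2) h1
    have h4 : ((A.L z)⁻¹ * A.L w * A.L s0)⁻¹ * ((A.L z)⁻¹ * t * A.L z) *
        ((A.L z)⁻¹ * A.L w * A.L s0) = B⁻¹ * t * B := by
      rw [hB]
      group
    rw [← h4]
    exact h3
  set F : Set Q := {x | ∀ t ∈ T, t (B x) = B x} with hF
  have hiff : ∀ t x, (B⁻¹ * t * B) x = x ↔ t (B x) = B x := by
    intro t x
    show B⁻¹ (t (B x)) = x ↔ _
    rw [Equiv.Perm.inv_eq_iff_eq]
  have he : A.e ∈ F := by
    intro t ht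
    rw [hBx, A.idr, hws]
    exact hz t ht
  have hop : ∀ a ∈ F, ∀ b ∈ F, A.op a b ∈ F := by
    intro a ha b hb t ht
    rw [← hiff, AL.aut_apply (haut t ht), (hiff t a).2 (ha t ht), (hiff t b).2 (hb t ht)]
  have hcard : (Fx T).card = Fintype.card F := by
    rw [← Finset.card_univ]
    refine (Finset.card_bij (fun (w : F) _ => B w) ?_ ?_ ?_).symm
    · intro w _
      rw [mem_Fx]
      exact w.2
    · intro a _ b _ hab
      exact Subtype.ext (B.injective hab)
    · intro y hy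
      rw [mem_Fx] at hy
      refine ⟨⟨B⁻¹ y, ?_⟩, mem_univ _, ai B y⟩
      intro t ht
      rw [ai]
      exact hy t ht
  have hex : ∃ q, ∃ t ∈ T, t q ≠ q := by
    obtain ⟨t, ht, ht1⟩ := hT1
    by_contra hcon
    push Not at hcon
    exact ht1 (Equiv.ext fun q => hcon q t ht)
  have hlt : Fintype.card F < Fintype.card Q := by
    obtain ⟨q, t, ht, hq⟩ := hex
    apply Fintype.card_subtype_lt (x := B⁻¹ q)
    intro hmem
    have h1 := hmem t ht
    apply hq
    rw [ai] at h1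
    exact h1
  set S' : Finset F := univ.filter (fun x : F => (x : Q) ∈ S) with hS'
  have hmem' : ∀ x : F, x ∈ (S' : Set F) ↔ (x : Q) ∈ S := by
    intro x
    rw [Finset.mem_coe, hS', Finset.mem_filter]
    simp
  have hSL : SL (sub A F he hop) (S' : Set F) := by
    refine ⟨?_, ?_⟩
    · rw [hmem']
      exact hS.e
    · intro a ha b hb
      rw [hmem'] at ha hb ⊢
      exact hS.op _ ha _ hb
  have hHP : HP (sub A F he hop) (S' : Set F) p :=
    HP_sub hH F he hop _ (fun x hx => (hmem' x).1 hx)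
  have hdvd := IH F (sub A F he hop) S' hlt hSL hHP
  obtain ⟨m, hm⟩ := card_ppow hSL hp hHP
  refine ⟨m, ?_, ?_⟩
  · rw [hcard, ← hm]
    exact hdvd
  · rw [← hm]
    have hmemF : ∀ s ∈ S.filter (fun s => cj (A.R s) T' = T), (A.L s0)⁻¹ s ∈ F := by
      intro s hs t ht
      rw [Finset.mem_filter] at hs
      have h1 : B ((A.L s0)⁻¹ s) = A.op w s := by
        rw [hBx]
        have : A.op s0 ((A.L s0)⁻¹ s) = s := ai (A.L s0) s
        rw [this]
      rw [h1]
      exact mem_Fx.1 ((hmap s hs.2 w).1 hwF) t ht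
    refine Finset.card_le_card_of_surjOn (fun x : F => A.op s0 x) ?_
    intro s hs
    have hs' : s ∈ S.filter (fun s => cj (A.R s) T' = T) := hs
    refine ⟨⟨(A.L s0)⁻¹ s, hmemF s hs'⟩, ?_, ai (A.L s0) s⟩
    rw [hmem']
    rw [Finset.mem_filter] at hs'
    exact ldiv_mem hS hs0.1 hs'.1

end Pool.Agent.W790.LG
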