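import Pool.Agent.W790.LG.Nil

/-!
# Lagrange property for subloops whose right multiplication group is a p-group
-/

set_option autoImplicit false
set_option linter.unusedSectionVars false

namespace Pool.Agent.W790.LG

open Pool.Agent.H687R3.AL Finset
open scoped Classical

variable {Q : Type} {A : AL Q}

/-- the conjugation action on finite sets of permutations -/
@[reducible] noncomputable def cjAct (Q : Type) :
    MulAction (Equiv.Perm Q) (Finset (Equiv.Perm Q)) where
  smul g T := cj g T
  one_smul T := cj_one T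
  mul_smul g h T := cj_mul g h T

theorem cj_fix {S : Set Q} (he : A.e ∈ S) {T : Finset (Equiv.Perm Q)}
    (hT : ∀ t ∈ T, t ∈ MM A S) {g : Equiv.Perm Q} (hg : g ∈ MM A S) (hf : ∀ s ∈ S, g s = s) :
    cj g T = T := by
  have hc : ∀ t ∈ T, g * t = t * g := fun t ht => fix_comm' he (MM_le hg) hf (hT t ht)
  ext t
  rw [mem_cj]
  constructor
  · intro h
    have h1 := hc _ h
    have h2 : t = g * (g⁻¹ * t * g) * g⁻¹ := by group
    rw [h1] at h2
    have h3 : g⁻¹ * t * g * g * g⁻¹ = g⁻¹ * t * g := by group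
    rw [h3] at h2
    rw [h2]
    exact h
  · intro h
    have h1 := hc t h
    have h2 : g⁻¹ * t * g = t := by
      rw [mul_assoc, ← h1]
      group
    rw [h2]
    exact h

variable [Fintype Q]

theorem classN (A : AL Q) (S : Finset Q) (hS : SL A (S : Set Q)) {p : ℕ} (hp : p.Prime)
    (hH : HP A (S : Set Q) p)
    (IH : ∀ (Q' : Type) [Fintype Q'] (A' : AL Q') (S' : Finset Q'),
      Fintype.card Q' < Fintype.card Q → SL A' (S' : Set Q') → HP A' (S' : Set Q') p →
        S'.card ∣ Fintype.card Q')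
    (T : Finset (Equiv.Perm Q)) (hT : ∀ t ∈ T, t ∈ MM A (S : Set Q)) (hT1 : ∃ t ∈ T, t ≠ 1)
    (z : Q) (hz : ∀ t ∈ T, t z = z) :
    S.card ∣ (univ.filter (fun T' => cjrel A S T T')).card * (Fx T).card := by
  letI := cjAct Q
  set M := MM A (S : Set Q) with hM
  set St1 := MulAction.stabilizer (Equiv.Perm Q) A.e with hSt1
  set St2 := MulAction.stabilizer (Equiv.Perm Q) T with hSt2
  have a1 := orb_stab M A.e
  rw [hM, orbit_e' hS, Set.ncard_coe_finset, ← hM] at a1
  have a2 := orb_stab M T
  have a3 := orb_stab (M ⊓ St2) A.e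
  have a4 := orb_stab (M ⊓ St1) T
  rw [← hSt1] at a1 a3
  rw [← hSt2] at a2 a4
  have a5 : (M ⊓ St2 ⊓ St1) = (M ⊓ St1 ⊓ St2) := inf_right_comm _ _ _
  obtain ⟨a, ha⟩ := card_ppow hS hp hH
  obtain ⟨γ, hγ⟩ := orbit_ppow (G := M) (p := p) T (by
    rintro g q hq hqp ⟨k, hk⟩
    exact cj_fix hS.e hT g.2 (qfix hp hH g.2 hq hqp (k := k)
      (by simpa using congrArg Subtype.val hk)))
  obtain ⟨β, hβ⟩ := orbit_ppow (G := (M ⊓ St1 : Subgroup (Equiv.Perm Q))) (p := p) T (by
    rintro g q hq hqp ⟨k, hk⟩
    exact cj_fix hS.e hT g.2.1 (qfix hp hH g.2.1 hq hqp (k := k)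
      (by simpa using congrArg Subtype.val hk)))
  obtain ⟨ν, hν⟩ := orbit_ppow (G := (M ⊓ St2 : Subgroup (Equiv.Perm Q))) (p := p) A.e (by
    rintro g q hq hqp ⟨k, hk⟩
    exact qfix hp hH g.2.1 hq hqp (k := k)
      (by simpa using congrArg Subtype.val hk) A.e hS.e)
  rw [hγ] at a2
  rw [hβ] at a4
  rw [hν] at a3
  have hx : 0 < Nat.card (M ⊓ St1 ⊓ St2 : Subgroup (Equiv.Perm Q)) := Nat.card_pos
  have hprod : p ^ a * p ^ β = p ^ γ * p ^ ν := by
    apply Nat.eq_of_mul_eq_mul_right hx
    rw [mul_assoc, ← a4, mul_assoc, ← a5, ← a3, ← a2, a1, ha]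
  have hp1 : 1 < p := hp.one_lt
  have hadd : a + β = γ + ν := by
    rw [← pow_add, ← pow_add] at hprod
    exact Nat.pow_right_injective hp1 hprod
  have hFne : (Fx T).card ≠ 0 := by
    intro h0
    rw [Finset.card_eq_zero] at h0
    have h1 : z ∈ Fx T := mem_Fx.2 hz
    rw [h0] at h1
    exact absurd h1 (Finset.notMem_empty z)
  set v := (Fx T).card.factorization p with hv
  have hpv : p ^ v ∣ (Fx T).card := Nat.ordProj_dvd _ _
  -- pigeonhole
  have hle : ν ≤ v + β := by
    set NE : Finset Q := univ.filter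
      (fun s => s ∈ MulAction.orbit (M ⊓ St2 : Subgroup (Equiv.Perm Q)) A.e) with hNE
    have hNEc : NE.card = p ^ ν := by
      rw [← hν, ← Set.ncard_coe_finset]
      congr 1
      ext s
      rw [Finset.mem_coe, hNE, Finset.mem_filter]
      simp
    set KC : Finset (Finset (Equiv.Perm Q)) := univ.filter
      (fun T' => T' ∈ MulAction.orbit (M ⊓ St1 : Subgroup (Equiv.Perm Q)) T) with hKC
    have hKCc : KC.card = p ^ β := by
      rw [← hβ, ← Set.ncard_coe_finset]
      congr 1
      ext s
      rw [Finset.mem_coe, hKC, Finset.mem_filter]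
      simp
    have hNES : ∀ s ∈ NE, s ∈ S := by
      intro s hs
      rw [hNE, Finset.mem_filter] at hs
      obtain ⟨_, g, rfl⟩ := hs
      exact MM_S hS g.2.1 A.e hS.e
    have himg : NE.image (fun s => cj (A.R s)⁻¹ T) ⊆ KC := by
      intro T' hT'
      rw [Finset.mem_image] at hT'
      obtain ⟨s, hs, rfl⟩ := hT'
      have hsS := hNES s hs
      rw [hNE, Finset.mem_filter] at hs
      obtain ⟨_, g, hg⟩ := hs
      have hge : g.1 A.e = s := hg
      have hgT : cj g.1 T = T := g.2.2
      rw [hKC, Finset.mem_filter]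
      have hmm : (A.R s)⁻¹ * g.1 ∈ M := M.mul_mem (M.inv_mem (R_mem_MM hsS)) g.2.1
      refine ⟨mem_univ _, ⟨(A.R s)⁻¹ * g.1, ?_, ?_⟩, ?_⟩
      · exact hmm
      · show (A.R s)⁻¹ (g.1 A.e) = A.e
        rw [hge, Equiv.Perm.inv_eq_iff_eq]
        exact (R_e' s).symm
      · show cj ((A.R s)⁻¹ * g.1) T = _
        rw [cj_mul, hgT]
    have hcard : NE.card ≤ p ^ v * (NE.image (fun s => cj (A.R s)⁻¹ T)).card := by
      apply Finset.card_le_mul_card_image
      intro T' _
      obtain ⟨m, hm1, hm2⟩ := keyN A S hS hp hH IH T hT hT1 z hz T'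
      have hmv : m ≤ v := (hp.pow_dvd_iff_le_factorization hFne).1 hm1
      refine le_trans (le_trans (Finset.card_le_card ?_) hm2) (Nat.pow_le_pow_right hp.pos hmv)
      intro s hs
      rw [Finset.mem_filter] at hs ⊢
      refine ⟨hNES s hs.1, ?_⟩
      rw [← hs.2, ← cj_mul, mul_inv_cancel, cj_one]
    have h2 : p ^ ν ≤ p ^ (v + β) := by
      rw [← hNEc, pow_add, ← hKCc]
      exact hcard.trans (Nat.mul_le_mul_left _ (Finset.card_le_card himg))
    exact (Nat.pow_le_pow_iff_right hp1).1 h2
  have hc : (univ.filter (fun T' => cjrel A S T T')).card = p ^ γ := by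
    rw [← hγ, ← Set.ncard_coe_finset]
    congr 1
    ext T'
    rw [Finset.mem_coe, Finset.mem_filter]
    constructor
    · rintro ⟨_, g, hg, rfl⟩
      exact ⟨⟨g, hg⟩, rfl⟩
    · rintro ⟨g, rfl⟩
      exact ⟨mem_univ _, g.1, g.2, rfl⟩
  rw [hc, ha]
  have h3 : p ^ a ∣ p ^ γ * p ^ v := by
    rw [← pow_add]
    exact pow_dvd_pow p (by omega)
  exact h3.trans (Nat.mul_dvd_mul_left _ hpv)

theorem card_dvd_M' {S : Finset Q} (hS : SL A (S : Set Q)) :
    S.card ∣ Nat.card (MM A (S : Set Q)) := by
  have h1 := MulAction.index_stabilizer (MM A (S : Set Q)) A.e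
  rw [orbit_e' hS, Set.ncard_coe_finset] at h1
  rw [← h1]
  exact Subgroup.index_dvd_card _

theorem dvd_Fr' {S : Finset Q} (hS : SL A (S : Set Q)) : (S.card : ℤ) ∣ ((Fr A S).card : ℤ) := by
  have h := dvd_sum_orbits (MulAction.orbitRel (MM A (S : Set Q)) Q)
    (fun z => if z ∈ Fr A S then (1 : ℤ) else 0) (S.card : ℤ) ?_ ?_
  · have e : ∑ z : Q, (if z ∈ Fr A S then (1 : ℤ) else 0) = ((Fr A S).card : ℤ) := by
      rw [Finset.sum_boole]
      congr 2
      ext z
      simp
    rwa [e] at h
  · intro x y hxy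
    have h1 : x ∈ MulAction.orbit (MM A (S : Set Q)) y := hxy
    obtain ⟨g, rfl⟩ := h1
    have h2 : (g • y) ∈ Fr A S ↔ y ∈ Fr A S := by
      constructor
      · intro h3
        have h4 := Fr_act h3 (inv_mem g.2)
        have h5 : (g.1)⁻¹ (g • y) = y := ia g.1 y
        rwa [h5] at h4
      · intro h3
        exact Fr_act h3 g.2
    show (if (g • y) ∈ Fr A S then (1 : ℤ) else 0) = _
    simp only [h2]
  · intro x
    by_cases hx : x ∈ Fr A S
    · rw [if_pos hx, mul_one]
      have h1 : (univ.filter (fun y => (MulAction.orbitRel (MM A (S : Set Q)) Q) x y)).card =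
          (MulAction.orbit (MM A (S : Set Q)) x).ncard := by
        rw [← Set.ncard_coe_finset]
        congr 1
        ext y
        rw [Finset.mem_coe, Finset.mem_filter]
        constructor
        · rintro ⟨_, h2⟩
          exact (MulAction.orbitRel (MM A (S : Set Q)) Q).symm h2
        · intro h2
          exact ⟨mem_univ _, (MulAction.orbitRel (MM A (S : Set Q)) Q).symm h2⟩
      rw [h1, orbit_free hx]
      exact_mod_cast card_dvd_M' hS
    · rw [if_neg hx, mul_zero]
      exact dvd_zero _

theorem main_auxN {p : ℕ} (hp : p.Prime) (n : ℕ) :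
    ∀ (Q : Type) [Fintype Q] (A : AL Q) (S : Finset Q),
    Fintype.card Q = n → SL A (S : Set Q) → HP A (S : Set Q) p → S.card ∣ Fintype.card Q := by
  induction n using Nat.strong_induction_on with
  | _ n ih =>
    intro Q _ A S hn hS hH
    have IH : ∀ (Q' : Type) [Fintype Q'] (A' : AL Q') (S' : Finset Q'),
        Fintype.card Q' < Fintype.card Q → SL A' (S' : Set Q') → HP A' (S' : Set Q') p →
          S'.card ∣ Fintype.card Q' := by
      intro Q' _ A' S' hlt hS' hH'
      exact ih _ (by rw [← hn]; exact hlt) Q' A' S' rfl hS' hH'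
    have hie := Finset.inclusion_exclusion_card_inf_compl (M1 A S)
      (fun t => univ.filter (fun z : Q => t z = z))
    have e1 : ((M1 A S).inf fun t => (univ.filter (fun z : Q => t z = z))ᶜ) = Fr A S := by
      ext z
      rw [Finset.mem_inf, mem_Fr]
      constructor
      · intro h t ht ht1
        have h1 := h t (mem_M1.2 ⟨ht, ht1⟩)
        simpa using h1
      · intro h t ht
        rw [mem_M1] at ht
        have h1 := h t ht.1 ht.2
        simpa using h1
    have e2 : ∀ T : Finset (Equiv.Perm Q),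
        (T.inf fun t => univ.filter (fun z : Q => t z = z)) = Fx T := by
      intro T
      ext z
      rw [Finset.mem_inf, mem_Fx]
      constructor
      · intro h t ht
        have h1 := h t ht
        simpa using h1
      · intro h t ht
        have h1 := h t ht
        simpa using h1
    rw [e1] at hie
    simp only [e2] at hie
    have hmem : (∅ : Finset (Equiv.Perm Q)) ∈ (M1 A S).powerset := Finset.empty_mem_powerset _
    rw [← Finset.add_sum_erase _ _ hmem] at hie
    have e3 : (Fx (∅ : Finset (Equiv.Perm Q))).card = Fintype.card Q := by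
      have : Fx (∅ : Finset (Equiv.Perm Q)) = (univ : Finset Q) := by
        ext z
        rw [mem_Fx]
        simp
      rw [this, Finset.card_univ]
    rw [e3, Finset.card_empty, pow_zero, one_mul] at hie
    have hsum : (S.card : ℤ) ∣ ∑ T ∈ (M1 A S).powerset.erase ∅,
        (-1 : ℤ) ^ T.card * ((Fx T).card : ℤ) := by
      have h := dvd_sum_orbits (cjrel A S)
        (fun T => if T ∈ (M1 A S).powerset.erase ∅ then (-1 : ℤ) ^ T.card * ((Fx T).card : ℤ)
          else 0) (S.card : ℤ) ?_ ?_
      · rw [Finset.sum_ite_mem, Finset.univ_inter] at h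
        exact h
      · rintro T T' ⟨g, hg, rfl⟩
        have h2 : cj g T ∈ (M1 A S).powerset.erase ∅ ↔ T ∈ (M1 A S).powerset.erase ∅ := by
          constructor
          · intro h3
            have h4 := cj_sub h3 (inv_mem hg)
            rwa [← cj_mul, inv_mul_cancel, cj_one] at h4
          · intro h3
            exact cj_sub h3 hg
        simp only [h2, card_cj, card_Fx_cj]
      · intro T
        by_cases hT : T ∈ (M1 A S).powerset.erase ∅
        · rw [if_pos hT]
          have hT' := hT
          rw [Finset.mem_erase, Finset.mem_powerset] at hT'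
          have hTM : ∀ t ∈ T, t ∈ MM A (S : Set Q) := fun t ht => (mem_M1.1 (hT'.2 ht)).1
          by_cases hne : (Fx T).Nonempty
          · obtain ⟨z, hz⟩ := hne
            rw [mem_Fx] at hz
            obtain ⟨t, ht⟩ := Finset.nonempty_iff_ne_empty.2 hT'.1
            obtain ⟨k, hk⟩ := classN A S hS hp hH IH T hTM
              ⟨t, ht, (mem_M1.1 (hT'.2 ht)).2⟩ z hz
            refine ⟨(-1) ^ T.card * (k : ℤ), ?_⟩
            have hk' : (((univ.filter (fun T' => cjrel A S T T')).card : ℤ)) *
                ((Fx T).card : ℤ) = (S.card : ℤ) * (k : ℤ) := by exact_mod_cast hk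
            calc _ = (-1 : ℤ) ^ T.card * ((((univ.filter (fun T' => cjrel A S T T')).card : ℤ)) *
                ((Fx T).card : ℤ)) := by ring
              _ = _ := by rw [hk']; ring
          · rw [Finset.not_nonempty_iff_eq_empty] at hne
            rw [hne, Finset.card_empty]
            simp
        · rw [if_neg hT, mul_zero]
          exact dvd_zero _
    have hfr := dvd_Fr' hS
    have hfin : (S.card : ℤ) ∣ (Fintype.card Q : ℤ) := by
      have h1 : (Fintype.card Q : ℤ) = ((Fr A S).card : ℤ) -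
          ∑ T ∈ (M1 A S).powerset.erase ∅, (-1 : ℤ) ^ T.card * ((Fx T).card : ℤ) := by
        rw [hie]
        ring
      rw [h1]
      exact dvd_sub hfr hsum
    exact_mod_cast hfin

theorem lagrange_p {p : ℕ} (hp : p.Prime) (A : AL Q) (S : Finset Q) (hS : SL A (S : Set Q))
    (hH : HP A (S : Set Q) p) : S.card ∣ Fintype.card Q := main_auxN hp _ Q A S rfl hS hH

end Pool.Agent.W790.LG
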